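import Pool.Agent.Helper6.CS.Goals2

/-!
# Packet EA of project CS: the substitution identity of Lemma 5
-/

namespace Pool.Agent.Helper28.CS

open Pool.Agent.Helper6.CS

set_option synthInstance.maxSize 1000000000

variable {M : Type} [World M]

theorem len_isub (a : M) (w v : Wd M) : (isub a w v).len = w.len := by
  unfold isub
  rw [Wd.len_of]

theorem get_isub (a : M) (w v : Wd M) {p : M} (hp : p < w.len) :
    (isub a w v).get p = if w.get p < a then w.get p else v.get (w.get p - a) := by
  unfold isub
  rw [Wd.get_of_lt _ _ hp]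

theorem isub_append (a : M) (s t v : Wd M) : isub a (s ++ t) v = isub a s v ++ isub a t v := by
  refine Wd.ext' (by simp [len_isub]) fun i hi => ?_
  rw [len_isub, Wd.len_append] at hi
  rw [get_isub _ _ _ (by rwa [Wd.len_append])]
  rcases Wd.lt_cases hi with h | ⟨j, hj, rfl⟩
  · rw [Wd.get_append_left _ _ h, Wd.get_append_left _ _ (by rwa [len_isub]), get_isub _ _ _ h]
  · rw [Wd.get_append_right]
    have h1 : s.len + j = (isub a s v).len + j := by rw [len_isub]
    rw [h1, Wd.get_append_right, get_isub _ _ _ hj]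

theorem isub_sg (a c : M) (v : Wd M) :
    isub a (Wd.sg c) v = Wd.sg (if c < a then c else v.get (c - a)) := by
  refine Wd.ext' (by simp [len_isub]) fun i hi => ?_
  rw [len_isub] at hi
  rw [get_isub _ _ _ hi]
  rw [Wd.len_sg] at hi
  have h4 : i < 0 + 1 := by rwa [zero_add]
  rw [World.lt_succ] at h4
  have := le_antisymm h4 (World.zero_le' _)
  subst this
  rw [Wd.get_sg_zero, Wd.get_sg_zero]

/-- The letters below `a + j`. -/
theorem val_lt {a j c : M} {v : Wd M} (e : M) (hv : v.len = j) (hc : c < a + j) :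
    (if c < a then c else (v ++ Wd.sg e).get (c - a)) = if c < a then c else v.get (c - a) := by
  by_cases h : c < a
  · rw [if_pos h, if_pos h]
  · rw [if_neg h, if_neg h]
    refine Wd.get_append_left _ _ ?_
    obtain ⟨i, rfl⟩ := World.exists_add a c (not_lt.1 h)
    rw [add_tsub_cancel_left, hv]
    exact lt_of_add_lt_add_left hc

/-- The letter `a + j`. -/
theorem val_eq {a j : M} {v : Wd M} {e b : M} (hv : v.len = j)
    (hb : (e < a ∧ b = e) ∨ ∃ i, i < j ∧ b = a + i ∧ v.get i = e) :
    (if a + j < a then a + j else (v ++ Wd.sg e).get (a + j - a)) =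
      if b < a then b else v.get (b - a) := by
  rw [if_neg (not_lt.2 (le_add_of_nonneg_right (World.zero_le' j))), add_tsub_cancel_left]
  have h1 : (v ++ Wd.sg e).get j = e := by
    have h2 : j = v.len + 0 := by rw [hv, add_zero]
    rw [h2, Wd.get_append_right, Wd.get_sg_zero]
  rw [h1]
  rcases hb with ⟨he, rfl⟩ | ⟨i, hi, rfl, hvi⟩
  · rw [if_pos he]
  · rw [if_neg (not_lt.2 (le_add_of_nonneg_right (World.zero_le' i))), add_tsub_cancel_left, hvi]

theorem t_EA : Pool.Agent.Helper6.CS.G_EA := by
  intro M _ a j w y v e b hw hy hv hb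
  rw [isub_append, isub_append, isub_append, isub_append]
  have e1 : isub a w (v ++ Wd.sg e) = isub a w v := by
    refine Wd.ext' (by rw [len_isub, len_isub]) fun i hi => ?_
    rw [len_isub] at hi
    rw [get_isub _ _ _ hi, get_isub _ _ _ hi]
    exact val_lt e hv (hw i hi)
  have e2 : isub a (Wd.sg (a + j)) (v ++ Wd.sg e) = isub a (Wd.sg b) v := by
    rw [isub_sg, isub_sg, val_eq hv hb]
  have e3 : isub a y (v ++ Wd.sg e) = isub a (Wd.sub (a + j) b y) v := by
    refine Wd.ext' (by rw [len_isub, len_isub, Wd.len_sub]) fun i hi => ?_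
    rw [len_isub] at hi
    rw [get_isub _ _ _ hi, get_isub _ _ _ (by rwa [Wd.len_sub]), Wd.get_sub _ _ _ hi]
    by_cases h : y.get i = a + j
    · rw [if_pos h, h]
      exact val_eq hv hb
    · rw [if_neg h]
      have h2 := hy i hi
      rw [World.lt_succ] at h2
      exact val_lt e hv (lt_of_le_of_ne h2 h)
  rw [e1, e2, e3]

end Pool.Agent.Helper28.CS
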